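import Pool.Agent.H67.HM.Stm

open Polynomial MeasureTheory Filter Topology

namespace HM
namespace H51

theorem ASM_proved : S_ASM := by
  intro X _ _ _ M D M₀ ι N c hMc hc hD hM₀ hMM₀ h1 h2
  classical
  -- dense sequence in M₀
  have hM₀ne : M₀.Nonempty := by
    have h0 : (0 : X) ∈ closure M₀ := hMM₀ M.zero_mem
    exact closure_nonempty_iff.1 ⟨0, h0⟩
  have : Nonempty M₀ := hM₀ne.to_subtype
  have : SecondCountableTopology X := UniformSpace.secondCountable_of_separable X
  let x : ℕ → M₀ := TopologicalSpace.denseSeq M₀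
  have hx : DenseRange x := TopologicalSpace.denseRange_denseSeq M₀
  have : Nonempty D := hD.nonempty.to_subtype
  let y : ℕ → D := TopologicalSpace.denseSeq D
  have hy : DenseRange y := TopologicalSpace.denseRange_denseSeq D
  -- choice of the sequence
  have key : ∀ n : ℕ, ∃ i, (∀ j < n, Metric.infDist (x j : X) (N i) ≤ 1 / ((n : ℝ) + 1)) ∧
      (((y (Nat.unpair n).1 : X)) ∉ M → c * Metric.infDist (y (Nat.unpair n).1 : X) (M : Set X) ≤
        Metric.infDist (y (Nat.unpair n).1 : X) (N i)) := by
    intro n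
    by_cases hyM : ((y (Nat.unpair n).1 : X)) ∈ M
    · obtain ⟨i, hi⟩ := h1 n (fun j => (x j : X)) (fun j => (x j).2) (1 / ((n : ℝ) + 1))
        (by positivity)
      exact ⟨i, fun j hj => hi ⟨j, hj⟩, fun h => absurd hyM h⟩
    · obtain ⟨i, hi, hi2⟩ := h2 n (fun j => (x j : X)) (fun j => (x j).2) (1 / ((n : ℝ) + 1))
        (by positivity) _ (y (Nat.unpair n).1).2 hyM
      exact ⟨i, fun j hj => hi ⟨j, hj⟩, fun _ => hi2⟩
  choose s hs1 hs2 using key
  have hinf0 : Metric.infDist (0 : X) (M : Set X) = 0 :=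
    Metric.infDist_zero_of_mem M.zero_mem
  refine ⟨s, fun f => ⟨fun hf => ?_, fun hf => ?_⟩⟩
  · rw [Metric.tendsto_atTop]
    intro ε hε
    have hfc : f ∈ closure M₀ := hMM₀ hf
    obtain ⟨z, hz, hzf⟩ := Metric.mem_closure_iff.1 hfc (ε / 4) (by positivity)
    obtain ⟨k, hk⟩ := hx.exists_dist_lt (⟨z, hz⟩ : M₀) (show 0 < ε / 4 by positivity)
    have hk' : dist z (x k : X) < ε / 4 := hk
    obtain ⟨n0, hn0⟩ := exists_nat_one_div_lt (show 0 < ε / 4 by positivity)
    refine ⟨max n0 (k + 1), fun n hn => ?_⟩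
    have hn1 : n0 ≤ n := le_trans (le_max_left _ _) hn
    have hn2 : k < n := lt_of_lt_of_le (Nat.lt_succ_self k) (le_trans (le_max_right _ _) hn)
    have h3 := hs1 n k hn2
    have h4 : (1 : ℝ) / ((n : ℝ) + 1) ≤ 1 / ((n0 : ℝ) + 1) := by
      apply one_div_le_one_div_of_le (by positivity)
      have : (n0 : ℝ) ≤ n := by exact_mod_cast hn1
      linarith
    have h5 : Metric.infDist f (N (s n) : Set X)
        ≤ Metric.infDist (x k : X) (N (s n) : Set X) + dist f (x k : X) :=
      Metric.infDist_le_infDist_add_dist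
    have h6 : dist f (x k : X) ≤ dist f z + dist z (x k : X) := dist_triangle _ _ _
    rw [Real.dist_eq, sub_zero, abs_of_nonneg Metric.infDist_nonneg]
    linarith
  · by_contra hfM
    have hpos : 0 < Metric.infDist f (M : Set X) := by
      rw [← hMc.notMem_iff_infDist_pos ⟨0, M.zero_mem⟩]
      exact hfM
    set d := Metric.infDist f (M : Set X) with hd
    set δ := min (d / 2) (c * d / 4) with hδ
    have hδpos : 0 < δ := lt_min (by positivity) (by positivity)
    obtain ⟨z, hz, hzf⟩ := hD.exists_dist_lt f (show 0 < δ / 2 by positivity)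
    obtain ⟨j, hj⟩ := hy.exists_dist_lt (⟨z, hz⟩ : D) (show 0 < δ / 2 by positivity)
    have hj' : dist z (y j : X) < δ / 2 := hj
    have hfy : dist f (y j : X) < δ := by
      have := dist_triangle f z (y j : X)
      linarith
    have hδ1 : δ ≤ d / 2 := min_le_left _ _
    have hδ2 : δ ≤ c * d / 4 := min_le_right _ _
    have h7 : d ≤ Metric.infDist (y j : X) (M : Set X) + dist f (y j : X) :=
      Metric.infDist_le_infDist_add_dist
    have h8 : d / 2 ≤ Metric.infDist (y j : X) (M : Set X) := by linarith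
    have hyM : (y j : X) ∉ M := by
      intro hmem
      have : Metric.infDist (y j : X) (M : Set X) = 0 := Metric.infDist_zero_of_mem hmem
      linarith
    rw [Metric.tendsto_atTop] at hf
    obtain ⟨n1, hn1⟩ := hf (c * d / 4) (by positivity)
    have h9 := hn1 (Nat.pair j n1) (Nat.right_le_pair j n1)
    have h10 := hs2 (Nat.pair j n1)
    rw [Nat.unpair_pair] at h10
    have h11 := h10 hyM
    simp only at h11
    rw [Real.dist_eq, sub_zero, abs_of_nonneg Metric.infDist_nonneg] at h9
    have h12 : Metric.infDist (y j : X) (N (s (Nat.pair j n1)) : Set X) ≤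
        Metric.infDist f (N (s (Nat.pair j n1)) : Set X) + dist (y j : X) f :=
      Metric.infDist_le_infDist_add_dist
    rw [dist_comm] at h12
    have h13 : c * (d / 2) ≤ c * Metric.infDist (y j : X) (M : Set X) :=
      mul_le_mul_of_nonneg_left h8 hc.le
    nlinarith

end H51

theorem ASM_proved : S_ASM := H51.ASM_proved

end HM
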