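import Pool.Agent.H67.HM.Stm

open Polynomial MeasureTheory Filter Topology

namespace HM
namespace H51

theorem dct {p : ENNReal} [Fact (1 ≤ p)] (hp : p ≠ ⊤) (f : ℕ → LpI p) (g B : LpI p) (C : ℝ)
    (hC : 0 ≤ C) (hb : ∀ n, ∀ᵐ x ∂mu, ‖f n x - g x‖ ≤ C * ‖B x‖)
    (hlim : ∀ᵐ x ∂mu, ∀ᶠ n in atTop, f n x = g x) : Tendsto f atTop (𝓝 g) := by
  have hp0 : p ≠ 0 := (lt_of_lt_of_le one_pos (Fact.out : 1 ≤ p)).ne'
  have hpr : 0 < p.toReal := ENNReal.toReal_pos hp0 hp
  rw [Lp.tendsto_Lp_iff_tendsto_eLpNorm']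
  have h1 : Tendsto (fun n => ∫⁻ x, ‖(⇑(f n) - ⇑g) x‖ₑ ^ p.toReal ∂mu) atTop
      (𝓝 (∫⁻ _x, (0 : ENNReal) ∂mu)) := by
    refine tendsto_lintegral_of_dominated_convergence'
      (fun x => (ENNReal.ofReal C * ‖B x‖ₑ) ^ p.toReal) ?_ ?_ ?_ ?_
    · intro n
      have hm : AEStronglyMeasurable (⇑(f n) - ⇑g) mu :=
        (Lp.aestronglyMeasurable (f n)).sub (Lp.aestronglyMeasurable g)
      exact (hm.enorm).pow_const _
    · intro n
      filter_upwards [hb n] with x hx
      refine ENNReal.rpow_le_rpow ?_ hpr.le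
      rw [Pi.sub_apply, ← ofReal_norm, ← ofReal_norm,
        ← ENNReal.ofReal_mul hC]
      exact ENNReal.ofReal_le_ofReal hx
    · have h2 : (fun x => (ENNReal.ofReal C * ‖B x‖ₑ) ^ p.toReal)
          = fun x => ENNReal.ofReal C ^ p.toReal * ‖B x‖ₑ ^ p.toReal := by
        funext x
        rw [ENNReal.mul_rpow_of_nonneg _ _ hpr.le]
      rw [h2, lintegral_const_mul' _ _ (ENNReal.rpow_ne_top_of_nonneg hpr.le ENNReal.ofReal_ne_top)]
      refine ENNReal.mul_ne_top (ENNReal.rpow_ne_top_of_nonneg hpr.le ENNReal.ofReal_ne_top) ?_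
      exact (lintegral_rpow_enorm_lt_top_of_eLpNorm_lt_top hp0 hp (Lp.eLpNorm_lt_top B)).ne
    · filter_upwards [hlim] with x hx
      refine Tendsto.congr' ?_ tendsto_const_nhds
      filter_upwards [hx] with n hn
      rw [Pi.sub_apply, hn, sub_self, enorm_zero, ENNReal.zero_rpow_of_pos hpr]
  rw [lintegral_zero] at h1
  have h3 := (ENNReal.continuous_rpow_const (y := 1 / p.toReal)).tendsto (0 : ENNReal)
  rw [ENNReal.zero_rpow_of_pos (by positivity)] at h3
  refine (h3.comp h1).congr fun n => ?_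
  rw [Function.comp_apply, eLpNorm_eq_lintegral_rpow_enorm_toReal hp0 hp]

/-- angle -/
noncomputable def ang (δ : ℝ) (x : ℝ) : AddCircle (1 : ℝ) := ((-Real.log x / δ : ℝ) : AddCircle (1 : ℝ))

theorem memLp_psi {p : ENNReal} (δ : ℝ) (e0 : LpI p) (h : C(AddCircle (1 : ℝ), ℂ)) :
    MemLp (fun x => h (ang δ x) * e0 x) p mu := by
  have hm : Measurable (fun x : ℝ => h (ang δ x)) := by
    have h1 : Measurable (fun x : ℝ => -Real.log x / δ) := (Real.measurable_log.neg).div_const _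
    have h2 : Measurable (fun u : ℝ => h (u : AddCircle (1:ℝ))) :=
      (h.continuous.comp (AddCircle.continuous_mk' (1:ℝ))).measurable
    exact h2.comp h1
  refine MemLp.of_le_mul (c := ‖h‖) (Lp.memLp e0)
    (hm.aestronglyMeasurable.mul (Lp.aestronglyMeasurable e0)) (Eventually.of_forall fun x => ?_)
  rw [norm_mul]
  exact mul_le_mul_of_nonneg_right (h.norm_coe_le_norm _) (norm_nonneg _)

/-- multiplication operator -/
noncomputable def psi {p : ENNReal} [Fact (1 ≤ p)] (δ : ℝ) (e0 : LpI p) :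
    C(AddCircle (1 : ℝ), ℂ) →L[ℂ] LpI p :=
  LinearMap.mkContinuous
    { toFun := fun h => (memLp_psi δ e0 h).toLp _
      map_add' := by
        intro h k
        refine Lp.ext ?_
        filter_upwards [MemLp.coeFn_toLp (memLp_psi δ e0 (h + k)), MemLp.coeFn_toLp (memLp_psi δ e0 h),
          MemLp.coeFn_toLp (memLp_psi δ e0 k),
          Lp.coeFn_add ((memLp_psi δ e0 h).toLp _) ((memLp_psi δ e0 k).toLp _)] with x h1 h2 h3 h4
        rw [h4, Pi.add_apply, h1, h2, h3, ContinuousMap.add_apply, add_mul]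
      map_smul' := by
        intro c h
        refine Lp.ext ?_
        filter_upwards [MemLp.coeFn_toLp (memLp_psi δ e0 (c • h)),
          MemLp.coeFn_toLp (memLp_psi δ e0 h),
          Lp.coeFn_smul c ((memLp_psi δ e0 h).toLp _)] with x h1 h2 h4
        rw [RingHom.id_apply, h4, Pi.smul_apply, h1, h2, ContinuousMap.smul_apply, smul_eq_mul,
          smul_eq_mul, mul_assoc] } ‖e0‖ (by
    intro h
    rw [mul_comm]
    refine Lp.norm_le_mul_norm_of_ae_le_mul ?_
    filter_upwards [MemLp.coeFn_toLp (memLp_psi δ e0 h)] with x h1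
    change ‖(MemLp.toLp _ (memLp_psi δ e0 h)) x‖ ≤ _
    rw [h1, norm_mul]
    exact mul_le_mul_of_nonneg_right (h.norm_coe_le_norm _) (norm_nonneg _))

theorem psi_ae {p : ENNReal} [Fact (1 ≤ p)] (δ : ℝ) (e0 : LpI p) (h : C(AddCircle (1 : ℝ), ℂ)) :
    (psi δ e0 h : ℝ → ℂ) =ᵐ[mu] fun x => h (ang δ x) * e0 x :=
  MemLp.coeFn_toLp (memLp_psi δ e0 h)

/-- the cut off functions -/
noncomputable def cut (a : ℂ) (n : ℕ) (u : ℝ) : ℂ :=
  Complex.exp (a * u) * ((min 1 ((n : ℝ) * min u (1 - u)) : ℝ) : ℂ)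


noncomputable def cutC (a : ℂ) (n : ℕ) : C(AddCircle (1 : ℝ), ℂ) :=
  ⟨AddCircle.liftIco (1 : ℝ) 0 (cut a n), by
    refine AddCircle.liftIco_zero_continuous ?_ ?_
    · unfold cut; simp
    · unfold cut
      refine Continuous.continuousOn ?_
      fun_prop⟩

theorem cutC_apply (a : ℂ) (n : ℕ) (u : ℝ) :
    cutC a n (u : AddCircle (1 : ℝ)) = cut a n (Int.fract u) := by
  change AddCircle.liftIco (1 : ℝ) 0 (cut a n) (u : AddCircle (1 : ℝ)) = _
  unfold AddCircle.liftIco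
  rw [Function.comp_apply, Set.domRestrict_apply]
  have := AddCircle.coe_equivIco_mk_apply (1 : ℝ) u
  rw [div_one, mul_one] at this
  rw [← this]

theorem cut_norm (a : ℂ) (n : ℕ) (u : ℝ) (h0 : 0 ≤ u) (h1 : u ≤ 1) :
    ‖cut a n u‖ ≤ Real.exp ‖a‖ := by
  unfold cut
  rw [norm_mul, Complex.norm_exp]
  have hm0 : 0 ≤ min 1 ((n : ℝ) * min u (1 - u)) :=
    le_min zero_le_one (mul_nonneg (Nat.cast_nonneg _) (le_min h0 (by linarith)))
  have h2 : ‖((min 1 ((n : ℝ) * min u (1 - u)) : ℝ) : ℂ)‖ ≤ 1 := by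
    rw [Complex.norm_real, Real.norm_of_nonneg hm0]
    exact min_le_left _ _
  have h3 : (a * (u : ℂ)).re ≤ ‖a‖ := by
    refine le_trans (Complex.re_le_norm _) ?_
    rw [norm_mul, Complex.norm_real, Real.norm_of_nonneg h0]
    nlinarith [norm_nonneg a]
  calc Real.exp (a * (u : ℂ)).re * ‖((min 1 ((n : ℝ) * min u (1 - u)) : ℝ) : ℂ)‖
      ≤ Real.exp ‖a‖ * 1 := by
        refine mul_le_mul (Real.exp_le_exp.2 h3) h2 (norm_nonneg _) (Real.exp_pos _).le
    _ = _ := mul_one _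

theorem cut_eventually (a : ℂ) (u : ℝ) (h0 : 0 < u) (h1 : u < 1) :
    ∀ᶠ n in atTop, cut a n u = Complex.exp (a * u) := by
  have hm : 0 < min u (1 - u) := lt_min h0 (by linarith)
  obtain ⟨N, hN⟩ := exists_nat_gt (1 / min u (1 - u))
  filter_upwards [eventually_ge_atTop N] with n hn
  have h2 : 1 ≤ (n : ℝ) * min u (1 - u) := by
    have h3 : (N : ℝ) ≤ n := by exact_mod_cast hn
    have h4 : 1 / min u (1 - u) * min u (1 - u) = 1 := by field_simp
    nlinarith
  unfold cut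
  rw [min_eq_left h2]; simp

theorem ae_pos : ∀ᵐ x ∂mu, 0 < x ∧ x ≤ 1 := by
  unfold mu
  have h0 : ∀ᵐ x ∂(volume.restrict (Set.Icc (0 : ℝ) 1)), x ∉ ({0} : Set ℝ) :=
    (Set.countable_singleton (0:ℝ)).ae_notMem _
  filter_upwards [ae_restrict_mem measurableSet_Icc, h0] with x hx hx0
  refine ⟨lt_of_le_of_ne hx.1 ?_, hx.2⟩
  intro h
  exact hx0 (by rw [← h]; rfl)

theorem ident (q δ x : ℝ) (l s₀ : ℂ) (hδ : 0 < δ) (hx : 0 < x) (hx1 : x ≤ 1)
    (hs : Complex.exp (-(δ * s₀)) = l) :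
    (((δ * x) ^ (-(1 / q)) : ℝ) : ℂ) * l ^ ⌊-Real.log x / δ⌋₊
      = ((δ ^ (-(1 / q)) : ℝ) : ℂ) * (Complex.exp (δ * s₀ * (Int.fract (-Real.log x / δ) : ℝ))
        * (x : ℂ) ^ (s₀ - 1 / (q : ℂ))) := by
  have hL : Real.log x ≤ 0 := Real.log_nonpos hx.le hx1
  have hu : 0 ≤ -Real.log x / δ := div_nonneg (by linarith) hδ.le
  have hfr : (Int.fract (-Real.log x / δ) : ℝ) = -Real.log x / δ - (⌊-Real.log x / δ⌋₊ : ℝ) := by
    have h1 : ((⌊-Real.log x / δ⌋₊ : ℕ) : ℝ) = ((⌊-Real.log x / δ⌋ : ℤ) : ℝ) :=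
      natCast_floor_eq_intCast_floor hu
    rw [h1]; rfl
  rw [Real.mul_rpow hδ.le hx.le, Complex.ofReal_mul, mul_assoc]
  congr 1
  rw [Real.rpow_def_of_pos hx, Complex.ofReal_exp, ← hs, ← Complex.exp_nat_mul, ← Complex.exp_add,
    Complex.cpow_def_of_ne_zero (by exact_mod_cast hx.ne'), ← Complex.ofReal_log hx.le,
    ← Complex.exp_add, hfr]
  congr 1
  have hδ' : (δ : ℂ) ≠ 0 := by exact_mod_cast hδ.ne'
  push_cast
  field_simp
  ring

theorem GEO_proved : S_GEO := by
  intro p _ hp1 hp2 e he δ hδ l hl0 hl1 g hg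
  have hptop : p ≠ ⊤ := ne_top_of_lt hp2
  have hδ' : (δ : ℂ) ≠ 0 := by exact_mod_cast hδ.ne'
  set s₀ : ℂ := -(Complex.log l) / δ with hs₀
  have hs0re : 0 < s₀.re := by
    rw [hs₀, Complex.div_ofReal_re, Complex.neg_re, Complex.log_re]
    have : Real.log ‖l‖ < 0 := Real.log_neg (norm_pos_iff.2 hl0) hl1
    exact div_pos (by linarith) hδ
  have hs0exp : Complex.exp (-(δ * s₀)) = l := by
    have : -(δ * s₀) = Complex.log l := by rw [hs₀]; field_simp
    rw [this, Complex.exp_log hl0]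
  set W := Submodule.span ℂ {x : LpI p | ∃ s : ℂ, 0 < s.re ∧ Complex.exp (-(δ * s)) = l ∧ x = e s}
    with hW
  have hfour : ∀ m : ℤ, psi δ (e s₀) (fourier m) ∈ W := by
    intro m
    set sm : ℂ := s₀ - 2 * Real.pi * Complex.I * m / δ with hsm
    have hre : 0 < sm.re := by
      have : sm.re = s₀.re := by
        rw [hsm, Complex.sub_re, Complex.div_ofReal_re]
        simp
      rw [this]; exact hs0re
    have hexp : Complex.exp (-(δ * sm)) = l := by
      have h1 : -(δ * sm) = -(δ * s₀) + m * (2 * Real.pi * Complex.I) := by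
        rw [hsm]; field_simp; ring
      rw [h1, Complex.exp_add, Complex.exp_int_mul_two_pi_mul_I, mul_one, hs0exp]
    have heq : psi δ (e s₀) (fourier m) = e sm := by
      refine Lp.ext ?_
      filter_upwards [psi_ae δ (e s₀) (fourier m), he s₀ hs0re, he sm hre, ae_pos] with x h1 h2 h3 hx
      rw [h1, h2, h3]
      unfold ang
      rw [fourier_coe_apply, Complex.cpow_def_of_ne_zero (by exact_mod_cast hx.1.ne'),
        Complex.cpow_def_of_ne_zero (by exact_mod_cast hx.1.ne'), ← Complex.ofReal_log hx.1.le,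
        ← Complex.exp_add]
      congr 1
      rw [hsm]
      push_cast
      field_simp
      ring
    rw [heq]
    exact Submodule.subset_span ⟨sm, hre, hexp, rfl⟩
  have hmem : ∀ h : C(AddCircle (1 : ℝ), ℂ), psi δ (e s₀) h ∈ W.topologicalClosure := by
    intro h
    have h1 : (Submodule.span ℂ (Set.range (@fourier (1 : ℝ)))).topologicalClosure
        ≤ W.topologicalClosure.comap (psi δ (e s₀)).toLinearMap := by
      refine Submodule.topologicalClosure_minimal _ ?_ ?_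
      · rw [Submodule.span_le]
        rintro _ ⟨m, rfl⟩
        exact W.le_topologicalClosure (hfour m)
      · exact (W.isClosed_topologicalClosure).preimage (psi δ (e s₀)).continuous
    rw [span_fourier_closure_eq_top] at h1
    exact h1 (Submodule.mem_top : h ∈ ⊤)
  set c : ℂ := ((δ ^ (-(1 / p.toReal)) : ℝ) : ℂ) with hc
  have hgx : ∀ᵐ x ∂mu, g x = c * (Complex.exp (δ * s₀ * (Int.fract (-Real.log x / δ) : ℝ))
        * (e s₀ : ℝ → ℂ) x) := by
    filter_upwards [hg, he s₀ hs0re, ae_pos] with x h1 h2 hx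
    rw [h1, h2]
    exact ident p.toReal δ x l s₀ hδ hx.1 hx.2 hs0exp
  have hfx : ∀ n, ∀ᵐ x ∂mu, (c • psi δ (e s₀) (cutC (δ * s₀) n) : LpI p) x
      = c * (cut (δ * s₀) n (Int.fract (-Real.log x / δ)) * (e s₀ : ℝ → ℂ) x) := by
    intro n
    filter_upwards [Lp.coeFn_smul c (psi δ (e s₀) (cutC (δ * s₀) n)),
      psi_ae δ (e s₀) (cutC (δ * s₀) n)] with x h1 h2
    rw [h1, Pi.smul_apply, h2, smul_eq_mul]
    unfold ang
    rw [cutC_apply]
  have hlim : Tendsto (fun n => c • psi δ (e s₀) (cutC (δ * s₀) n)) atTop (𝓝 g) := by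
    refine dct hptop _ g (e s₀) (‖c‖ * (2 * Real.exp ‖(δ : ℂ) * s₀‖)) (by positivity) ?_ ?_
    · intro n
      filter_upwards [hgx, hfx n] with x h1 h2
      rw [h1, h2, ← mul_sub, ← sub_mul, norm_mul, norm_mul]
      have hf0 := Int.fract_nonneg (-Real.log x / δ)
      have hf1 := (Int.fract_lt_one (-Real.log x / δ)).le
      have h3 := cut_norm (δ * s₀) n _ hf0 hf1
      have h4 : ‖Complex.exp (δ * s₀ * (Int.fract (-Real.log x / δ) : ℝ))‖
          ≤ Real.exp ‖(δ : ℂ) * s₀‖ := by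
        rw [Complex.norm_exp]
        refine Real.exp_le_exp.2 (le_trans (Complex.re_le_norm _) ?_)
        rw [norm_mul, Complex.norm_real, Real.norm_of_nonneg hf0]
        nlinarith [norm_nonneg ((δ : ℂ) * s₀)]
      have h5 : ‖cut (δ * s₀) n (Int.fract (-Real.log x / δ))
          - Complex.exp (δ * s₀ * (Int.fract (-Real.log x / δ) : ℝ))‖
          ≤ 2 * Real.exp ‖(δ : ℂ) * s₀‖ := by
        refine le_trans (norm_sub_le _ _) ?_
        linarith
      rw [← mul_assoc]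
      exact mul_le_mul_of_nonneg_right (mul_le_mul_of_nonneg_left h5 (norm_nonneg _))
        (norm_nonneg _)
    · have hcount : ∀ᵐ x ∂mu, x ∉ (Set.range fun m : ℤ => Real.exp (-(δ * m))) := by
        unfold mu
        exact (Set.countable_range _).ae_notMem _
      have hall : ∀ᵐ x ∂mu, ∀ n, (c • psi δ (e s₀) (cutC (δ * s₀) n) : LpI p) x
          = c * (cut (δ * s₀) n (Int.fract (-Real.log x / δ)) * (e s₀ : ℝ → ℂ) x) :=
        ae_all_iff.2 hfx
      filter_upwards [hgx, hall, ae_pos, hcount] with x h1 h2 hx h3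
      have hne : Int.fract (-Real.log x / δ) ≠ 0 := by
        intro h0
        rw [Int.fract_eq_iff] at h0
        obtain ⟨_, _, z, hz⟩ := h0
        apply h3
        refine ⟨z, ?_⟩
        rw [sub_zero] at hz
        simp only
        rw [← hz]
        have : -(δ * (-Real.log x / δ)) = Real.log x := by field_simp
        rw [this, Real.exp_log hx.1]
      have hpos : 0 < Int.fract (-Real.log x / δ) :=
        lt_of_le_of_ne (Int.fract_nonneg _) (Ne.symm hne)
      filter_upwards [cut_eventually (δ * s₀) _ hpos (Int.fract_lt_one _)] with n hn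
      rw [h2 n, h1, hn]
  have hcl : g ∈ W.topologicalClosure := by
    refine (W.isClosed_topologicalClosure).mem_of_tendsto hlim (Eventually.of_forall fun n => ?_)
    exact W.topologicalClosure.smul_mem c (hmem _)
  exact hcl

end H51

theorem GEO_proved : S_GEO := H51.GEO_proved

end HM
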