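import Pool.Agent.H67.HM.Stm

open Polynomial MeasureTheory Filter Topology

namespace HM
namespace H51

/-- shift operator on sequences -/
def E : Module.End ℂ (ℕ → ℂ) where
  toFun b k := b (k + 1)
  map_add' _ _ := rfl
  map_smul' _ _ := rfl

theorem E_pow (j : ℕ) (b : ℕ → ℂ) (k : ℕ) : (E ^ j) b k = b (j + k) := by
  induction j generalizing k with
  | zero => simp
  | succ n ih =>
    rw [pow_succ', Module.End.mul_apply]
    change (E ^ n) b (k + 1) = _
    rw [ih]; congr 1; ring

theorem cor_eq (A : ℂ[X]) (b : ℕ → ℂ) : cor A b = aeval E A b := by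
  funext k
  rw [aeval_def, eval₂_eq_sum, Polynomial.sum_def, LinearMap.sum_apply, Finset.sum_apply]
  unfold cor
  refine Finset.sum_congr rfl fun j _ => ?_
  rw [Module.End.mul_apply, Module.algebraMap_end_apply, Pi.smul_apply, E_pow, smul_eq_mul]

theorem tendsto_cor (A : ℂ[X]) (b : ℕ → ℂ) (hb : Tendsto b atTop (𝓝 0)) :
    Tendsto (cor A b) atTop (𝓝 0) := by
  unfold cor
  have : Tendsto (fun k => ∑ j ∈ A.support, A.coeff j * b (j + k)) atTop
      (𝓝 (∑ j ∈ A.support, A.coeff j * 0)) := by
    refine tendsto_finsetSum _ fun j _ => ?_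
    refine Tendsto.const_mul _ ?_
    have := (tendsto_add_atTop_iff_nat (f := b) j).2 hb
    refine this.congr fun k => ?_
    rw [add_comm]
  simpa using this

theorem REC_proved : S_REC := by
  intro G b hsep h0 hb hG
  classical
  have hG0 : G ≠ 0 := by
    rintro rfl; simp at h0
  set s : Finset ℂ := G.roots.toFinset with hs
  have hnd : G.roots.Nodup := nodup_roots hsep
  have hsplit : G = C G.leadingCoeff * ∏ j ∈ s, (X - C j) := by
    have h1 := (IsAlgClosed.splits G).eq_prod_roots
    conv_lhs => rw [h1]
    congr 1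
    rw [hs, Finset.prod, Multiset.toFinset_val, Multiset.dedup_eq_self.2 hnd]
  have hlead : G.leadingCoeff ≠ 0 := leadingCoeff_ne_zero.2 hG0
  have hGb : aeval E G b = 0 := by
    rw [← cor_eq]; funext k; exact hG k
  have hprod : aeval E (∏ j ∈ s, (X - C j)) b = 0 := by
    have : (∏ j ∈ s, (X - C j)) = C (G.leadingCoeff)⁻¹ * G := by
      have h3 : C (G.leadingCoeff)⁻¹ * G
          = C (G.leadingCoeff)⁻¹ * (C G.leadingCoeff * ∏ j ∈ s, (X - C j)) :=
        congrArg _ hsplit
      rw [h3, ← mul_assoc, ← C_mul, inv_mul_cancel₀ hlead, C_1, one_mul]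
    rw [this, map_mul, Module.End.mul_apply, hGb, map_zero]
  rcases s.eq_empty_or_nonempty with hemp | hne
  · refine ⟨∅, fun _ => 0, by simp, fun k => ?_⟩
    rw [hemp] at hprod
    simp only [Finset.prod_empty, map_one, Module.End.one_apply] at hprod
    rw [hprod]; simp
  · set y : ℂ → ℕ → ℂ := fun l => aeval E (Lagrange.basis s id l) b with hy
    have hsum : ∀ k, b k = ∑ l ∈ s, y l k := by
      intro k
      have h1 : ∑ l ∈ s, Lagrange.basis s id l = 1 :=
        Lagrange.sum_basis (Function.injective_id.injOn) hne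
      have h2 : aeval E (∑ l ∈ s, Lagrange.basis s id l) b = b := by
        rw [h1, map_one, Module.End.one_apply]
      rw [map_sum, LinearMap.sum_apply] at h2
      conv_lhs => rw [← h2]
      rw [Finset.sum_apply]
    have hrec : ∀ l ∈ s, ∀ k, y l (k + 1) = l * y l k := by
      intro l hl k
      have h1 : (X - C l) * Lagrange.basis s id l
          = C (∏ j ∈ s.erase l, (l - j)⁻¹) * ∏ j ∈ s, (X - C j) := by
        unfold Lagrange.basis Lagrange.basisDivisor
        simp only [id]
        rw [Finset.prod_mul_distrib, ← Finset.mul_prod_erase s _ hl, map_prod]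
        ring
      have h2 : aeval E ((X - C l) * Lagrange.basis s id l) b = 0 := by
        rw [h1, map_mul, Module.End.mul_apply, hprod, map_zero]
      rw [map_mul, Module.End.mul_apply] at h2
      have h3 := congrFun h2 k
      rw [map_sub, aeval_X, aeval_C, LinearMap.sub_apply, Pi.sub_apply,
        Module.algebraMap_end_apply, Pi.smul_apply, smul_eq_mul, Pi.zero_apply, sub_eq_zero] at h3
      exact h3
    have hpow : ∀ l ∈ s, ∀ k, y l k = y l 0 * l ^ k := by
      intro l hl k
      induction k with
      | zero => simp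
      | succ n ih => rw [hrec l hl, ih]; ring
    refine ⟨s.filter (fun l => y l 0 ≠ 0), fun l => y l 0, ?_, ?_⟩
    · intro l hl
      obtain ⟨hl, hy0⟩ := Finset.mem_filter.1 hl
      have hroot : G.eval l = 0 := by
        rw [hs, Multiset.mem_toFinset, mem_roots hG0] at hl
        exact hl
      refine ⟨?_, ?_, hroot⟩
      · rintro rfl
        exact h0 (by rw [coeff_zero_eq_eval_zero]; exact hroot)
      · have ht : Tendsto (y l) atTop (𝓝 0) := by
          have := tendsto_cor (Lagrange.basis s id l) b hb
          rwa [cor_eq] at this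
        have ht2 : Tendsto (fun k => ‖l‖ ^ k) atTop (𝓝 0) := by
          have h4 : Tendsto (fun k => (‖y l 0‖)⁻¹ * ‖y l k‖) atTop (𝓝 ((‖y l 0‖)⁻¹ * ‖(0:ℂ)‖)) :=
            (ht.norm).const_mul _
          rw [norm_zero, mul_zero] at h4
          refine h4.congr fun k => ?_
          rw [hpow l hl k, norm_mul, norm_pow, ← mul_assoc, inv_mul_cancel₀ (norm_ne_zero_iff.2 hy0),
            one_mul]
        by_contra hge
        push Not at hge
        have h5 : ∀ k : ℕ, (1:ℝ) ≤ ‖l‖ ^ k := fun k => one_le_pow₀ hge
        have := ge_of_tendsto' ht2 h5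
        linarith
    · intro k
      rw [hsum k, Finset.sum_filter]
      refine Finset.sum_congr rfl fun l hl => ?_
      rw [hpow l hl k]
      split_ifs with h
      · rfl
      · push Not at h; rw [h, zero_mul]

end H51

theorem REC_proved : S_REC := H51.REC_proved

end HM
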